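import Mathlib
import Pool.Agent.X119.Rouche

set_option autoImplicit false

namespace Pool.Agent.Results.MP_69dca4_nt.NotFlatBelow

open Polynomial Pool.Agent.X119.Rouche
open scoped Real

/-- The exponential sum `∑_{n ≤ N} f(n) e^{2πinθ}`. -/
noncomputable def expSum (f : ℕ → ℂ) (N : ℕ) (θ : ℝ) : ℂ :=
  ∑ n ∈ Finset.Icc 1 N, f n * Complex.exp (2 * π * Complex.I * n * θ)

/-- The Liouville function, with complex values. -/
noncomputable def liouville (n : ℕ) : ℂ := (-1) ^ ArithmeticFunction.cardFactors n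

/-- the minimum of the absolute value of the exponential sum of the Liouville function -/
noncomputable def mLiouville (N : ℕ) : ℝ := ⨅ θ : ℝ, ‖expSum liouville N θ‖

/-- The polynomial `∑_{k < N} f(k+1) X^k`. -/
noncomputable def Q (f : ℕ → ℂ) (N : ℕ) : ℂ[X] := ∑ k ∈ Finset.range N, C (f (k + 1)) * X ^ k

lemma Q_eval (f : ℕ → ℂ) (N : ℕ) (z : ℂ) :
    (Q f N).eval z = ∑ k ∈ Finset.range N, f (k + 1) * z ^ k := by
  simp [Q, eval_finsetSum]

lemma norm_eval_eq (f : ℕ → ℂ) (N : ℕ) (θ : ℝ) :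
    ‖expSum f N θ‖ = ‖(Q f N).eval (Complex.exp (2 * π * Complex.I * θ))‖ := by
  have h : expSum f N θ = Complex.exp (2 * π * Complex.I * θ) *
      (Q f N).eval (Complex.exp (2 * π * Complex.I * θ)) := by
    rw [Q_eval, Finset.mul_sum, expSum]
    have : Finset.Icc 1 N = Finset.Ico 1 (N + 1) := by ext; simp
    rw [this, Finset.sum_Ico_eq_sum_range]
    simp only [Nat.add_sub_cancel]
    refine Finset.sum_congr rfl fun k _ => ?_
    have e : Complex.exp (2 * π * Complex.I * ((1 + k : ℕ) : ℂ) * θ) =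
        Complex.exp (2 * π * Complex.I * θ) * Complex.exp (2 * π * Complex.I * θ) ^ k := by
      rw [← Complex.exp_nat_mul, ← Complex.exp_add]
      congr 1
      push_cast; ring
    rw [e, add_comm 1 k]; ring
  rw [h, norm_mul]
  have : ‖Complex.exp (2 * π * Complex.I * θ)‖ = 1 := by
    rw [show (2 * π * Complex.I * θ : ℂ) = ((2 * π * θ : ℝ) : ℂ) * Complex.I by push_cast; ring]
    exact Complex.norm_exp_ofReal_mul_I _
  rw [this, one_mul]

lemma exists_theta (z : ℂ) (hz : ‖z‖ = 1) : ∃ θ : ℝ, Complex.exp (2 * π * Complex.I * θ) = z := by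
  refine ⟨z.arg / (2 * π), ?_⟩
  have h := Complex.norm_mul_exp_arg_mul_I z
  rw [hz, Complex.ofReal_one, one_mul] at h
  have e : (2 * π * Complex.I * ((z.arg / (2 * π) : ℝ) : ℂ)) = z.arg * Complex.I := by
    push_cast
    have : (π : ℂ) ≠ 0 := by exact_mod_cast Real.pi_ne_zero
    field_simp
  rw [e, h]

lemma root_bound (f : ℕ → ℂ) (hf : ∀ n, 1 ≤ n → ‖f n‖ = 1) (N : ℕ) (hN : 1 ≤ N) (z : ℂ)
    (hz : (Q f N).eval z = 0) : 1/2 ≤ ‖z‖ := by
  by_contra hcon
  push Not at hcon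
  rw [Q_eval] at hz
  obtain ⟨M, rfl⟩ := Nat.exists_eq_add_of_le' hN
  rw [Finset.sum_range_succ'] at hz
  simp only [zero_add, pow_zero, mul_one] at hz
  have h1 : ‖f 1‖ = ‖∑ k ∈ Finset.range M, f (k + 1 + 1) * z ^ (k + 1)‖ := by
    have : f 1 = -∑ k ∈ Finset.range M, f (k + 1 + 1) * z ^ (k + 1) := by
      linear_combination hz
    rw [this, norm_neg]
  rw [hf 1 le_rfl] at h1
  have h2 : ‖∑ k ∈ Finset.range M, f (k + 1 + 1) * z ^ (k + 1)‖ ≤
      ∑ k ∈ Finset.range M, ‖z‖ ^ (k + 1) := by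
    refine (norm_sum_le _ _).trans (Finset.sum_le_sum fun k _ => ?_)
    rw [norm_mul, hf _ (by omega), one_mul, norm_pow]
  have h3 : ∀ M : ℕ, ∑ k ∈ Finset.range M, ‖z‖ ^ (k + 1) ≤ ‖z‖ / (1 - ‖z‖) * (1 - ‖z‖ ^ M) := by
    intro M
    induction M with
    | zero => simp
    | succ M ih =>
      rw [Finset.sum_range_succ]
      have h0 : (1 - ‖z‖) ≠ 0 := by linarith
      have : ‖z‖ / (1 - ‖z‖) * (1 - ‖z‖ ^ (M + 1)) =
          ‖z‖ / (1 - ‖z‖) * (1 - ‖z‖ ^ M) + ‖z‖ ^ (M + 1) := by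
        field_simp; ring
      linarith
  have h4 := h3 M
  have h5 : ‖z‖ / (1 - ‖z‖) * (1 - ‖z‖ ^ M) < 1 := by
    have a1 : 0 ≤ ‖z‖ := norm_nonneg z
    have a2 : ‖z‖ / (1 - ‖z‖) < 1 := by rw [div_lt_one (by linarith)]; linarith
    have a3 : 0 ≤ ‖z‖ / (1 - ‖z‖) := div_nonneg a1 (by linarith)
    have a4 : 0 ≤ ‖z‖ ^ M := by positivity
    nlinarith
  linarith

lemma Q_coeff (f : ℕ → ℂ) (N k : ℕ) : (Q f N).coeff k = if k < N then f (k + 1) else 0 := by
  unfold Q
  rw [finset_sum_coeff]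
  simp only [coeff_C_mul, coeff_X_pow, mul_ite, mul_one, mul_zero]
  by_cases h : k < N
  · rw [if_pos h, Finset.sum_eq_single k]
    · simp
    · intro b _ hb
      rw [if_neg (Ne.symm hb)]
    · intro h'; exact absurd (Finset.mem_range.mpr h) h'
  · rw [if_neg h]
    apply Finset.sum_eq_zero
    intro b hb
    rw [if_neg]
    have := Finset.mem_range.mp hb
    omega

lemma Q_natDegree (f : ℕ → ℂ) (hf : ∀ n, 1 ≤ n → ‖f n‖ = 1) (N : ℕ) (hN : 1 ≤ N) :
    (Q f N).natDegree = N - 1 := by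
  apply natDegree_eq_of_le_of_coeff_ne_zero
  · rw [natDegree_le_iff_coeff_eq_zero]
    intro k hk
    rw [Q_coeff, if_neg (by omega)]
  · rw [Q_coeff, if_pos (by omega)]
    intro h
    have := hf (N - 1 + 1) (by omega)
    rw [h, norm_zero] at this
    exact zero_ne_one this

lemma Q_ne_zero (f : ℕ → ℂ) (hf : ∀ n, 1 ≤ n → ‖f n‖ = 1) (N : ℕ) (hN : 1 ≤ N) :
    Q f N ≠ 0 := by
  intro h
  have h1 := Q_coeff f N 0
  rw [h, if_pos (by omega)] at h1
  simp only [coeff_zero, zero_add] at h1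
  have := hf 1 le_rfl
  rw [← h1, norm_zero] at this
  exact zero_ne_one this

lemma prod_bound (s : Multiset ℂ) (hs : ∀ z ∈ s, 1/2 ≤ ‖z‖) :
    (s.map (fun a => max 1 ‖a‖)).prod ≤
      2 ^ (by classical exact (s.filter (fun z => ‖z‖ < 1)).card : ℕ) * (s.map (fun a => ‖a‖)).prod := by
  classical
  induction s using Multiset.induction_on with
  | empty => simp
  | cons a s ih =>
    have ih' := ih (fun z hz => hs z (Multiset.mem_cons_of_mem hz))
    have ha := hs a (Multiset.mem_cons_self a s)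
    simp only [Multiset.map_cons, Multiset.prod_cons]
    have hp0 : 0 ≤ (s.map (fun a => max 1 ‖a‖)).prod := by
      apply Multiset.prod_nonneg
      intro b hb
      obtain ⟨c, _, rfl⟩ := Multiset.mem_map.mp hb
      positivity
    by_cases hlt : ‖a‖ < 1
    · rw [Multiset.filter_cons_of_pos (p := fun z : ℂ => ‖z‖ < 1) s hlt, Multiset.card_cons,
        max_eq_left hlt.le, one_mul, pow_succ]
      have h0 : 0 ≤ 2 ^ (Multiset.filter (fun z : ℂ => ‖z‖ < 1) s).card *
          (s.map (fun a => ‖a‖)).prod := hp0.trans ih'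
      nlinarith
    · rw [Multiset.filter_cons_of_neg (p := fun z : ℂ => ‖z‖ < 1) s hlt,
        max_eq_right (not_lt.mp hlt)]
      have := mul_le_mul_of_nonneg_left ih' (norm_nonneg a)
      linarith

lemma mahler_le (f : ℕ → ℂ) (hf : ∀ n, 1 ≤ n → ‖f n‖ = 1) (N : ℕ) (hN : 1 ≤ N) :
    (Q f N).mahlerMeasure ≤ 2 ^ (nz 1 (Q f N)) := by
  classical
  have hlead : ‖(Q f N).leadingCoeff‖ = 1 := by
    rw [leadingCoeff, Q_natDegree f hf N hN, Q_coeff, if_pos (by omega)]
    exact hf _ (by omega)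
  rw [mahlerMeasure_eq_leadingCoeff_mul_prod_roots, hlead, one_mul]
  refine (prod_bound _ ?_).trans ?_
  · intro z hz
    exact root_bound f hf N hN z ((mem_roots (Q_ne_zero f hf N hN)).mp hz)
  · have h := (IsAlgClosed.splits (Q f N)).coeff_zero_eq_leadingCoeff_mul_prod_roots
    have h2 : ‖(Q f N).coeff 0‖ = 1 := by
      rw [Q_coeff, if_pos (by omega)]; exact hf _ (by omega)
    have h3 := congrArg norm h
    rw [h2, norm_mul, norm_mul, hlead, norm_pow, norm_neg, norm_one, one_pow, one_mul, one_mul] at h3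
    have h4 : ((Q f N).roots.map (fun a => ‖a‖)).prod = 1 := by
      rw [h3]
      induction (Q f N).roots using Multiset.induction_on with
      | empty => simp
      | cons a s ih => simp [ih]
    rw [h4, mul_one]
    unfold nz
    exact le_rfl

lemma mahler_ge (p : ℂ[X]) (c : ℝ) (hc : 0 < c) (h : ∀ z : ℂ, ‖z‖ = 1 → c ≤ ‖p.eval z‖) :
    c ≤ p.mahlerMeasure := by
  have hp : p ≠ 0 := by
    rintro rfl
    have := h 1 (by simp)
    simp at this
    linarith
  rw [mahlerMeasure_def_of_ne_zero hp]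
  rw [← Real.log_le_iff_le_exp hc]
  have h1 : ∫ x in (0:ℝ)..(2 * π), Real.log c ≤
      ∫ (x : ℝ) in (0)..(2 * π), Real.log ‖eval (circleMap 0 1 x) p‖ := by
    apply intervalIntegral.integral_mono_on (by positivity)
    · exact intervalIntegrable_const
    · exact intervalIntegrable_mahlerMeasure p
    · intro x _
      apply Real.log_le_log hc
      apply h
      simp [circleMap]
  rw [intervalIntegral.integral_const, smul_eq_mul, sub_zero] at h1
  have hpi := Real.pi_pos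
  rw [le_inv_mul_iff₀ (by positivity)]
  exact h1

/-- The key statement: the minimum modulus of the partial sums is bounded along a subsequence. -/
theorem bounded_minimum (f : ℕ → ℂ) (hf : ∀ n, 1 ≤ n → ‖f n‖ = 1) :
    ∃ B : ℝ, ∀ N0 : ℕ, ∃ N, N0 ≤ N ∧ ∃ θ : ℝ, ‖expSum f N θ‖ ≤ B := by
  by_contra hcon
  push Not at hcon
  -- translate to the circle
  have key : ∀ B : ℝ, ∃ N0 : ℕ, ∀ N, N0 ≤ N → ∀ z : ℂ, ‖z‖ = 1 → B < ‖(Q f N).eval z‖ := by
    intro B
    obtain ⟨N0, hN0⟩ := hcon B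
    refine ⟨N0, fun N hN z hz => ?_⟩
    obtain ⟨θ, hθ⟩ := exists_theta z hz
    have := hN0 N hN θ
    rwa [norm_eval_eq, hθ] at this
  obtain ⟨N1, hN1⟩ := key 1
  have hconst : ∀ N, N1 ≤ N → nz 1 (Q f N) = nz 1 (Q f N1) := by
    intro N hN
    induction N, hN using Nat.le_induction with
    | base => rfl
    | succ N hN ih =>
      rw [← ih]
      symm
      apply rouche one_pos
      intro z hz
      have e : (Q f (N + 1)).eval z = (Q f N).eval z + f (N + 1) * z ^ N := by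
        rw [Q_eval, Q_eval, Finset.sum_range_succ]
      rw [e, sub_add_cancel_left, norm_neg, norm_mul, norm_pow, hz, one_pow, mul_one,
        hf _ (by omega)]
      exact hN1 N hN z hz
  obtain ⟨N3, hN3⟩ := key (2 ^ (nz 1 (Q f N1)) + 1)
  set N' := N1 + N3 + 1 with hN'
  have h1' := mahler_le f hf N' (by omega)
  rw [hconst N' (by omega)] at h1'
  have h2' := mahler_ge (Q f N') (2 ^ (nz 1 (Q f N1)) + 1) (by positivity)
    (fun z hz => (hN3 N' (by omega) z hz).le)
  linarith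

lemma liouville_norm (n : ℕ) : ‖liouville n‖ = 1 := by
  simp [liouville]

lemma mLiouville_nonneg (N : ℕ) : 0 ≤ mLiouville N := Real.iInf_nonneg fun _ => norm_nonneg _

lemma mLiouville_le (N : ℕ) (θ : ℝ) : mLiouville N ≤ ‖expSum liouville N θ‖ :=
  ciInf_le ⟨0, by rintro _ ⟨θ, rfl⟩; exact norm_nonneg _⟩ θ

/-- Main theorem. -/
theorem result :
    (∀ f : ℕ → ℂ, (∀ n, 1 ≤ n → ‖f n‖ = 1) →
      ∃ B : ℝ, ∀ N0 : ℕ, ∃ N, N0 ≤ N ∧ ∃ θ : ℝ, ‖expSum f N θ‖ ≤ B) ∧
    (∃ B : ℝ, ∃ᶠ N in Filter.atTop, mLiouville N ≤ B) ∧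
    Filter.liminf (fun N : ℕ => mLiouville N / Real.sqrt N) Filter.atTop = 0 ∧
    (¬ ∃ c : ℝ, 0 < c ∧ ∃ N0 : ℕ, ∀ N, N0 ≤ N → ∀ θ : ℝ,
      c * Real.sqrt N ≤ ‖expSum liouville N θ‖) := by
  obtain ⟨B, hB⟩ := bounded_minimum liouville (fun n _ => liouville_norm n)
  have hB' : ∃ᶠ N in Filter.atTop, mLiouville N ≤ B := by
    rw [Filter.frequently_atTop]
    intro N0
    obtain ⟨N, hN, θ, hθ⟩ := hB N0
    exact ⟨N, hN, (mLiouville_le N θ).trans hθ⟩
  have hsqrt : Filter.Tendsto (fun N : ℕ => Real.sqrt (N : ℝ)) Filter.atTop Filter.atTop :=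
    Real.tendsto_sqrt_atTop.comp tendsto_natCast_atTop_atTop
  have hsmall : ∀ ε : ℝ, 0 < ε → ∃ᶠ N : ℕ in Filter.atTop, mLiouville N / Real.sqrt N < ε := by
    intro ε hε
    have h1 : ∀ᶠ N : ℕ in Filter.atTop, (|B| + 1) / ε < Real.sqrt N :=
      hsqrt.eventually (Filter.eventually_gt_atTop _)
    refine (hB'.and_eventually h1).mono ?_
    rintro N ⟨hN1, hN2⟩
    have hs : 0 < Real.sqrt N := lt_of_le_of_lt (by positivity) hN2
    rw [div_lt_iff₀ hs]
    rw [div_lt_iff₀ hε] at hN2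
    have := le_abs_self B
    linarith
  refine ⟨fun f hf => bounded_minimum f hf, ⟨B, hB'⟩, ?_, ?_⟩
  · have hnn : ∀ N : ℕ, 0 ≤ mLiouville N / Real.sqrt N := fun N =>
      div_nonneg (mLiouville_nonneg N) (Real.sqrt_nonneg _)
    have hbdd : Filter.IsBoundedUnder (· ≥ ·) Filter.atTop
        (fun N : ℕ => mLiouville N / Real.sqrt N) :=
      Filter.isBoundedUnder_of ⟨0, hnn⟩
    have hcob : Filter.IsCoboundedUnder (· ≥ ·) Filter.atTop
        (fun N : ℕ => mLiouville N / Real.sqrt N) := by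
      apply Filter.IsCoboundedUnder.of_frequently_le (a := 1)
      exact (hsmall 1 one_pos).mono fun _ h => h.le
    apply le_antisymm
    · apply le_of_forall_pos_le_add
      intro ε hε
      rw [zero_add]
      exact Filter.liminf_le_of_frequently_le ((hsmall ε hε).mono fun _ h => h.le) hbdd
    · exact Filter.le_liminf_of_le hcob (Filter.Eventually.of_forall hnn)
  · rintro ⟨c, hc, N0, h⟩
    have h2 : ∀ᶠ N : ℕ in Filter.atTop, (|B| + 1) / c < Real.sqrt N :=
      hsqrt.eventually (Filter.eventually_gt_atTop _)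
    rw [Filter.eventually_atTop] at h2
    obtain ⟨N1, hN1⟩ := h2
    obtain ⟨N, hN, θ, hθ⟩ := hB (max N0 N1)
    have h3 := hN1 N (le_trans (le_max_right _ _) hN)
    have h4 := h N (le_trans (le_max_left _ _) hN) θ
    rw [div_lt_iff₀ hc] at h3
    have := le_abs_self B
    linarith

end Pool.Agent.Results.MP_69dca4_nt.NotFlatBelow
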